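import Pool.Agent.Q101.SecondDual

set_option autoImplicit false

namespace Pool.Agent.Results.MP_a8e783_an.DualLarger

open Pool.Agent.Results.MP_01d095_an.HilbertSum

/-- There is a real Banach space `X` with `n'(X) ≤ 1/2` and `n'(X*) ≥ 1/√2`, where `n'` is the
second numerical index; so `n'(X*) ≤ n'(X)` fails. -/
theorem result : ∃ (X : Type) (_ : NormedAddCommGroup X) (_ : NormedSpace ℝ X)
    (_ : CompleteSpace X), secondIndex X ≤ 1 / 2 ∧ 1 / √2 ≤ secondIndex (X →L[ℝ] ℝ) ∧
      secondIndex X < secondIndex (X →L[ℝ] ℝ) := by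
  have h1 := Q101.SecondC.secondIndex_C1_le
  have h2 := Q101.SecondDual.index_dual_ge
  refine ⟨Q101.SecondC.C1, inferInstance, inferInstance, inferInstance, h1, ?_,
    h1.trans_lt (lt_of_lt_of_le ?_ h2)⟩
  · rw [one_div]; exact h2
  · rw [one_div]
    apply inv_strictAnti₀ (by positivity)
    rw [Real.sqrt_lt' (by norm_num)]; norm_num

end Pool.Agent.Results.MP_a8e783_an.DualLarger
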